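import Pool.Agent.Helper60.T3.GoalsI

/-!
# Packet AIW (project T3, MP_a41896_nt): independence of many pairs
-/

set_option autoImplicit false

open MvPolynomial

namespace Pool.Agent.Helper71.T3.AIW

open WeierstrassCurve
open Pool.Agent.Helper60.T3
open Pool.Agent.Helper29.BL Pool.Agent.Helper92.Ru Pool.Agent.Helper42.SG

/-- replacing one element of an algebraically independent family -/
theorem repl {K Ω ι : Type} [Field K] [Field Ω] [Algebra K Ω] [DecidableEq ι] (v : ι → Ω)
    (hv : AlgebraicIndependent K v) (a b : ι) (hab : a ≠ b) (y : Ω)
    (hy : ∀ F : IntermediateField K Ω, AlgebraicIndependent F ![v a, v b] →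
      AlgebraicIndependent F ![v a, y]) :
    AlgebraicIndependent K (Function.update v b y) := by
  classical
  set s : Set ι := {a, b} with hs
  have has : a ∈ s := by simp [hs]
  have hbs : b ∈ s := by simp [hs]
  have key := (AlgebraicIndependent.iff_adjoin_image_compl (R := K) (x := v) s).mp hv
  have him : Function.update v b y '' sᶜ = v '' sᶜ := by
    apply Set.image_congr
    intro x hx
    have : x ≠ b := by
      rintro rfl
      exact hx hbs
    simp [Function.update_of_ne this]
  rw [AlgebraicIndependent.iff_adjoin_image_compl (R := K) (x := Function.update v b y) s]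
  rw [him]
  constructor
  · have : (fun i : ↥sᶜ => Function.update v b y i) = fun i : ↥sᶜ => v i := by
      funext i
      have : (i : ι) ≠ b := by
        intro h
        exact i.2 (h ▸ hbs)
      simp [Function.update_of_ne this]
    rw [this]
    exact key.1
  · have h2 : AlgebraicIndependent (Algebra.adjoin K (v '' sᶜ)) ![v a, v b] := by
      have h := key.2
      have h3 := h.comp (![⟨a, has⟩, ⟨b, hbs⟩] : Fin 2 → s) (by
        intro i j hij
        fin_cases i <;> fin_cases j <;> simp_all)
      convert h3 using 1
      funext i
      fin_cases i <;> rfl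
    rw [← IntermediateField.algebraicIndependent_adjoin_iff] at h2
    have h4 := hy _ h2
    rw [IntermediateField.algebraicIndependent_adjoin_iff] at h4
    have h5 := h4.comp (fun i : s => if (i : ι) = a then (0 : Fin 2) else 1) (by
      intro i j hij
      rcases i with ⟨i, hi⟩
      rcases j with ⟨j, hj⟩
      rcases hi with rfl | hi <;> rcases hj with rfl | hj
      · rfl
      · have hj' : j = b := hj
        subst hj'
        simp [hab.symm] at hij
      · have hi' : i = b := hi
        subst hi'
        simp [hab.symm] at hij
      · have hj' : j = b := hj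
        have hi' : i = b := hi
        subst hi' hj'
        rfl)
    unfold AlgebraicIndepOn
    convert h5 using 1
    funext i
    rcases i with ⟨i, hi⟩
    rcases hi with rfl | hi
    · simp [Function.update_of_ne hab]
    · have hi' : i = b := hi
      subst hi'
      simp [hab.symm]

/-- AIP for points of a curve which is equal to the base change -/
theorem aip (hP : S_AIP) {k L : Type} [Field k] [CharZero k] [Field L] [DecidableEq L]
    [Algebra k L] (W : Affine k) [W.IsElliptic] (W1 : Affine L) (h : W1 = WL L W)
    (a b : W1.Point) (e : ℕ) (ha : a ≠ 0) (hb : b ≠ 0)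
    (hi : AlgebraicIndependent k ![xc a, xc b]) :
    (2 ^ e) • a - b ≠ 0 ∧ (2 ^ e) • a + b ≠ 0 ∧ 2 • ((2 ^ e) • a - b) ≠ 0 ∧
      AlgebraicIndependent k ![xc a, xc ((2 ^ e) • a - b)] ∧
      AlgebraicIndependent k ![xc b, xc ((2 ^ e) • a - b)] := by
  subst h
  exact hP k L W a b e ha hb hi

theorem t (hP : S_AIP) : S_AIW := by
  intro K Ω _ _ _ _ _ τ _ W hW P Q e hPn hQn hind
  classical
  have hF : ∀ (F : IntermediateField K Ω) (i : τ), AlgebraicIndependent F ![xc (P i), xc (Q i)] →
      (2 ^ e) • P i - Q i ≠ 0 ∧ (2 ^ e) • P i + Q i ≠ 0 ∧
        AlgebraicIndependent F ![xc (P i), xc ((2 ^ e) • P i - Q i)] := by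
    intro F i hi
    have := hW i
    have : CharZero F := charZero_of_injective_algebraMap (algebraMap K F).injective
    have hcur : WL Ω (W i) = WL Ω ((W i).map (algebraMap K F)) := by
      have h1 := WeierstrassCurve.map_map (W := W i) (f := algebraMap K F) (g := algebraMap F Ω)
      exact h1.symm
    have := aip hP ((W i).map (algebraMap K F)) (WL Ω (W i)) hcur (P i) (Q i) e (hPn i) (hQn i) hi
    exact ⟨this.1, this.2.1, this.2.2.2.1⟩
  constructor
  · intro i
    have := hW i
    have h2 : AlgebraicIndependent K ![xc (P i), xc (Q i)] := by
      have h3 := hind.comp (![Sum.inl i, Sum.inr i] : Fin 2 → τ ⊕ τ) (by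
        intro i j hij
        fin_cases i <;> fin_cases j <;> simp_all)
      convert h3 using 1
      funext j
      fin_cases j <;> rfl
    have := hP K Ω (W i) (P i) (Q i) e (hPn i) (hQn i) h2
    exact ⟨this.1, this.2.1⟩
  · have main : ∀ s : Finset τ, AlgebraicIndependent K (Sum.elim (fun i => xc (P i))
        (fun i => if i ∈ s then xc ((2 ^ e) • P i - Q i) else xc (Q i))) := by
      intro s
      induction s using Finset.induction_on with
      | empty => simpa using hind
      | insert i s his ih =>
        have h := repl _ ih (Sum.inl i) (Sum.inr i) (by simp) (xc ((2 ^ e) • P i - Q i)) (by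
          intro F hF2
          simp only [Sum.elim_inl, Sum.elim_inr, his, if_false] at hF2 ⊢
          exact (hF F i hF2).2.2)
        convert h using 1
        funext j
        rcases j with j | j
        · simp [Function.update_of_ne]
        · by_cases hji : j = i
          · subst hji
            simp
          · have : (Sum.inr j : τ ⊕ τ) ≠ Sum.inr i := by
              intro h
              exact hji (Sum.inr_injective h)
            simp [Function.update_of_ne this, hji]
    simpa using main Finset.univ

end Pool.Agent.Helper71.T3.AIW
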