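import Pool.Agent.Helper68.T3.GoalsA

/-!
# Project T3 (MP_a41896_nt), packet PG-VAN3: a bad index in the block `0` kills the sum over the block `1`
-/

set_option autoImplicit false

open MvPolynomial

namespace Pool.Agent.Helper71.T3.VAN3

open WeierstrassCurve Height
open Pool.Agent.Helper29.BL Pool.Agent.Helper92.Ru Pool.Agent.Helper42.SG
open Pool.Agent.Helper68.VN Pool.Agent.Helper68.T3
open Pool.Agent.Helper77.SGC (N0)

/-- the sum of two exponents of the box `N` is in the box `2 N` -/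
theorem add_mem {σ : Type} [Fintype σ] [DecidableEq σ] (M : ℕ) {g1 g2 : σ → ℕ}
    (h1 : g1 ∈ box σ (2 * M)) (h2 : g2 ∈ box σ (2 * M)) :
    (fun i => g1 i + g2 i) ∈ box σ (4 * M) := by
  unfold box at h1 h2 ⊢
  rw [Fintype.mem_piFinset] at h1 h2 ⊢
  intro i
  have a1 := h1 i
  have a2 := h2 i
  rw [Finset.mem_range] at a1 a2 ⊢
  omega

/-- regroup a double sum according to `g1 + g2` -/
theorem regroup {σ : Type} [Fintype σ] [DecidableEq σ] {K : Type} [Field K] {X : Type}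
    [Fintype X] (M : ℕ) (c : X → K) (Γ : X → (σ → ℕ) → (σ → ℕ) → K) (h : (σ → ℕ) → K) :
    ∑ k ∈ box σ (4 * M), (∑ x : X, c x * ∑ g1 ∈ box σ (2 * M), ∑ g2 ∈ box σ (2 * M),
      if (fun i => g1 i + g2 i) = k then Γ x g1 g2 else 0) * h k =
    ∑ x : X, c x * ∑ g1 ∈ box σ (2 * M), ∑ g2 ∈ box σ (2 * M),
      Γ x g1 g2 * h (fun i => g1 i + g2 i) := by
  classical
  have e1 : ∀ k ∈ box σ (4 * M), (∑ x : X, c x * ∑ g1 ∈ box σ (2 * M),
      ∑ g2 ∈ box σ (2 * M), if (fun i => g1 i + g2 i) = k then Γ x g1 g2 else 0) * h k =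
      ∑ x : X, c x * ∑ g1 ∈ box σ (2 * M), ∑ g2 ∈ box σ (2 * M),
        if (fun i => g1 i + g2 i) = k then Γ x g1 g2 * h k else 0 := by
    intro k _
    rw [Finset.sum_mul]
    refine Finset.sum_congr rfl fun x _ => ?_
    rw [mul_assoc, Finset.sum_mul]
    congr 1
    refine Finset.sum_congr rfl fun g1 _ => ?_
    rw [Finset.sum_mul]
    refine Finset.sum_congr rfl fun g2 _ => ?_
    split_ifs with hh
    · rfl
    · rw [zero_mul]
  rw [Finset.sum_congr rfl e1, Finset.sum_comm]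
  refine Finset.sum_congr rfl fun x _ => ?_
  rw [← Finset.mul_sum, Finset.sum_comm]
  congr 1
  refine Finset.sum_congr rfl fun g1 hg1 => ?_
  rw [Finset.sum_comm]
  refine Finset.sum_congr rfl fun g2 hg2 => ?_
  rw [Finset.sum_ite_eq (box σ (4 * M)) (fun i => g1 i + g2 i)
    (fun k => Γ x g1 g2 * h k), if_pos (add_mem M hg1 hg2)]

/-- exchange of the sums -/
theorem exch {σ : Type} [Fintype σ] [DecidableEq σ] {K : Type} [Field K] {X : Type}
    [Fintype X] (M N : ℕ) (c : X → K) (P : X → (σ → ℕ) → K)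
    (Q : (σ → ℕ) → (σ → ℕ) → X → K) (rr : (σ → ℕ) → K) (h : (σ → ℕ) → K) :
    ∑ s ∈ box σ N, rr s * ∑ k ∈ box σ (4 * M),
      (∑ x : X, c x * ∑ g1 ∈ box σ (2 * M), ∑ g2 ∈ box σ (2 * M),
        if (fun i => g1 i + g2 i) = k then P x g1 * Q s g2 x else 0) * h k =
    ∑ x : X, c x * ∑ g1 ∈ box σ (2 * M), ∑ g2 ∈ box σ (2 * M),
      P x g1 * (∑ s ∈ box σ N, rr s * Q s g2 x) * h (fun i => g1 i + g2 i) := by
  classical
  have e1 : ∀ s ∈ box σ N, rr s * ∑ k ∈ box σ (4 * M),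
      (∑ x : X, c x * ∑ g1 ∈ box σ (2 * M), ∑ g2 ∈ box σ (2 * M),
        if (fun i => g1 i + g2 i) = k then P x g1 * Q s g2 x else 0) * h k =
      ∑ x : X, c x * ∑ g1 ∈ box σ (2 * M), ∑ g2 ∈ box σ (2 * M),
        P x g1 * (rr s * Q s g2 x) * h (fun i => g1 i + g2 i) := by
    intro s _
    rw [regroup M c (fun x g1 g2 => P x g1 * Q s g2 x) h, Finset.mul_sum]
    refine Finset.sum_congr rfl fun x _ => ?_
    rw [mul_left_comm, Finset.mul_sum]
    congr 1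
    refine Finset.sum_congr rfl fun g1 _ => ?_
    rw [Finset.mul_sum]
    refine Finset.sum_congr rfl fun g2 _ => ?_
    ring
  rw [Finset.sum_congr rfl e1, Finset.sum_comm]
  refine Finset.sum_congr rfl fun x _ => ?_
  rw [← Finset.mul_sum, Finset.sum_comm]
  congr 1
  refine Finset.sum_congr rfl fun g1 _ => ?_
  rw [Finset.sum_comm]
  refine Finset.sum_congr rfl fun g2 _ => ?_
  rw [Finset.mul_sum, Finset.sum_mul]

/-- **VAN3** -/
theorem t_VAN3 : Helper68.T3.VAN3 := by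
  classical
  intro K _ _ σ _ _ B' d c J f Df M k0 p e S T _ gr E r U2 U ρ ν x0 g a0 H H' hC hR hG cc hcc
    A _ _ X1 hX1 ha0 lam μ t ht
  set P : Ix σ 2 M 1 e → (σ → ℕ) → K := fun α g1 =>
    Gam S M (e 0) (r 0 (t 0)) (lam 0) (μ 0) g1 (α.1 0) with hP
  set Q : (σ → ℕ) → (σ → ℕ) → Ix σ 2 M 1 e → K := fun s g2 α =>
    ∏ i, S i (e 1) (lam 1 i) (μ 1 i) (s i) (g2 i) (α.1 1 i).1.val (α.1 1 i).2.val with hQ
  set Gf : (σ → ℕ) → (σ → ℕ) → K := fun s k => ∑ α : Ix σ 2 M 1 e, cc α *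
    ∑ g1 ∈ box σ (2 * M), ∑ g2 ∈ box σ (2 * M),
      if (fun i => g1 i + g2 i) = k then P α g1 * Q s g2 α else 0 with hGf
  have key : ∀ (rr h : (σ → ℕ) → K), ∑ s ∈ box σ (N0 M (e 1)), rr s *
      ∑ k ∈ box σ (4 * M), Gf s k * h k = ∑ α : Ix σ 2 M 1 e, cc α *
      ∑ g1 ∈ box σ (2 * M), ∑ g2 ∈ box σ (2 * M),
        Gam S M (e 0) (r 0 (t 0)) (lam 0) (μ 0) g1 (α.1 0) *
          Gam S M (e 1) rr (lam 1) (μ 1) g2 (α.1 1) * h (fun i => g1 i + g2 i) := by
    intro rr h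
    exact exch M (N0 M (e 1)) cc P Q rr h
  have hG' : ∀ u2 : U2, ∑ s ∈ box σ (N0 M (e 1)), ρ u2 s *
      ∑ k ∈ box σ (4 * M), Gf s k * ∏ i, x0 i ^ k i = 0 := by
    intro u2
    have h1 : ∑ k ∈ box σ (4 * M), (∑ s ∈ box σ (N0 M (e 1)), ρ u2 s * Gf s k) *
        ∏ i, x0 i ^ k i = 0 := by
      refine hR.red _ fun u => ?_
      have h2 := key (ρ u2) (ν u)
      rw [hcc lam μ (t 0) ht u2 u] at h2
      rw [← h2]
      simp only [Finset.mul_sum]
      rw [Finset.sum_comm]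
      refine Finset.sum_congr rfl fun s _ => Finset.sum_congr rfl fun k _ => ?_
      ring
    rw [← h1]
    simp only [Finset.mul_sum, Finset.sum_mul]
    rw [Finset.sum_comm]
    refine Finset.sum_congr rfl fun k _ => Finset.sum_congr rfl fun s _ => ?_
    ring
  have hA := hG.red A X1 hX1 ha0 (fun s => ∑ k ∈ box σ (4 * M), Gf s k * ∏ i, x0 i ^ k i) hG'
  have hBr : ∀ t1 : T 1, BrB S 2 M 1 e T r cc x0 lam μ (Function.update t 1 t1) =
      ∑ s ∈ box σ (N0 M (e 1)), r 1 t1 s *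
        ∑ k ∈ box σ (4 * M), Gf s k * ∏ i, x0 i ^ k i := by
    intro t1
    rw [key (r 1 t1) (fun k => ∏ i, x0 i ^ k i)]
    unfold BrB
    refine Finset.sum_congr rfl fun α _ => ?_
    rw [Fin.prod_univ_two, Function.update_self, Function.update_of_ne (by decide : (0 : Fin 2) ≠ 1),
      Finset.sum_mul_sum]
    have h3 : ∏ i, x0 i ^ (α.2 i).val = 1 := by
      refine Finset.prod_eq_one fun i _ => ?_
      have h4 : (α.2 i).val = 0 := by
        have := (α.2 i).isLt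
        omega
      rw [h4, pow_zero]
    rw [h3, mul_one]
    congr 1
    refine Finset.sum_congr rfl fun g1 _ => Finset.sum_congr rfl fun g2 _ => ?_
    have h5 : ∏ i, x0 i ^ (g1 i + g2 i) = (∏ i, x0 i ^ g1 i) * ∏ i, x0 i ^ g2 i := by
      rw [← Finset.prod_mul_distrib]
      simp only [pow_add]
    rw [h5]
    ring
  have hX : ∀ s ∈ box σ (N0 M (e 1)), (∏ i, X1 i ^ s i : A) =
      ∑ t1, algebraMap K A (r 1 t1 s) * aeval X1 (E 1 t1) := by
    intro s hs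
    have hs' : ∀ i, s i ≤ N0 M (e 1) := fun i =>
      Nat.lt_succ_iff.mp (Finset.mem_range.mp (Fintype.mem_piFinset.mp hs i))
    have h3 := congrArg (aeval X1) (hC.exp s hs')
    rw [map_prod, map_sum] at h3
    simp only [map_pow, aeval_X, map_mul, aeval_C] at h3
    exact h3
  rw [← hA]
  have h6 : ∀ s ∈ box σ (N0 M (e 1)),
      algebraMap K A (∑ k ∈ box σ (4 * M), Gf s k * ∏ i, x0 i ^ k i) * ∏ i, X1 i ^ s i =
      ∑ t1, aeval X1 (E 1 t1) * algebraMap K A (r 1 t1 s *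
        ∑ k ∈ box σ (4 * M), Gf s k * ∏ i, x0 i ^ k i) := by
    intro s hs
    rw [hX s hs, Finset.mul_sum]
    refine Finset.sum_congr rfl fun t1 _ => ?_
    rw [map_mul]
    ring
  rw [Finset.sum_congr rfl h6, Finset.sum_comm]
  refine Finset.sum_congr rfl fun t1 _ => ?_
  rw [hBr t1, map_sum, Finset.mul_sum]

end Pool.Agent.Helper71.T3.VAN3
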